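import Pool.Agent.V8H27.GC.Defs
import Pool.Agent.V8H50.FL.Sem

/-!
# PL spheres from lists of facets and bistellar flips

The vertices are natural numbers, the facets are bitsets.
-/

set_option autoImplicit false

namespace Pool.Agent.V8H50.GC

open Pool.Agent.V8H27.GC Pool.Agent.V8H50.FL

/-- the complex with the facets `L` (bitsets) -/
def faces (L : List ℕ) : Set (Finset ℕ) := {T | ∃ x ∈ L, ∀ v ∈ T, x.testBit v = true}

theorem faces_down {L : List ℕ} : ∀ T ∈ faces L, ∀ S, S ⊆ T → S ∈ faces L := by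
  rintro T ⟨f, hf, h⟩ S hS
  exact ⟨f, hf, fun v hv => h v (hS hv)⟩

/-- the complex after a bistellar flip -/
def flipped (K : Set (Finset ℕ)) (A B : Finset ℕ) : Set (Finset ℕ) :=
  {T | (T ∈ K ∧ ¬ A ⊆ T) ∨ (B ⊆ T ∧ T ⊆ A ∪ B ∧ ¬ A ⊆ T)}

theorem flipped_down {K : Set (Finset ℕ)} (hK : ∀ T ∈ K, ∀ S, S ⊆ T → S ∈ K) {A B : Finset ℕ}
    (h2 : ∀ b ∈ B, (A ∪ B).erase b ∈ K) : ∀ T ∈ flipped K A B, ∀ S, S ⊆ T → S ∈ flipped K A B := by
  rintro T (⟨hT, hA⟩ | ⟨hB, hT, hA⟩) S hS
  · exact Or.inl ⟨hK T hT S hS, fun h => hA (h.trans hS)⟩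
  · have hA' : ¬ A ⊆ S := fun h => hA (h.trans hS)
    by_cases hBS : B ⊆ S
    · exact Or.inr ⟨hBS, hS.trans hT, hA'⟩
    · obtain ⟨b, hb, hbS⟩ := Finset.not_subset.mp hBS
      refine Or.inl ⟨hK _ (h2 b hb) S ?_, hA'⟩
      intro x hx
      exact Finset.mem_erase.mpr ⟨fun h => hbS (h ▸ hx), hT (hS hx)⟩

theorem star_flip {K : Set (Finset ℕ)} (hK : ∀ T ∈ K, ∀ S, S ⊆ T → S ∈ K) {A B : Finset ℕ} {m : ℕ}
    (hAB : Disjoint A B) (hB : B.Nonempty) (h1 : ∀ T ∈ K, A ⊆ T → T ⊆ A ∪ B)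
    (h2 : ∀ b ∈ B, (A ∪ B).erase b ∈ K) (h3 : B ∉ K) (hm : ∀ T ∈ K, m ∉ T) (hmB : m ∉ B) (hmA : m ∉ A) :
    star A m K = star B m (flipped K A B) := by
  have hKB : ∀ T ∈ K, ¬ B ⊆ T := fun T hT h => h3 (hK T hT B h)
  ext T
  by_cases hmT : m ∈ T
  · have hT1 : T ∉ K := fun h => hm T h hmT
    have hT2 : T ∉ flipped K A B := by
      rintro (⟨h, -⟩ | ⟨-, h, -⟩)
      · exact hT1 h
      · rcases Finset.mem_union.mp (h hmT) with h | h
        · exact hmA h
        · exact hmB h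
    set R := T.erase m with hR
    have hAR : A ⊆ T ↔ A ⊆ R := by
      rw [hR]
      exact ⟨fun h x hx => Finset.mem_erase.mpr ⟨fun hxm => hmA (hxm ▸ hx), h hx⟩,
        fun h => h.trans (Finset.erase_subset _ _)⟩
    have hBR : B ⊆ T ↔ B ⊆ R := by
      rw [hR]
      exact ⟨fun h x hx => Finset.mem_erase.mpr ⟨fun hxm => hmB (hxm ▸ hx), h hx⟩,
        fun h => h.trans (Finset.erase_subset _ _)⟩
    have hL : T ∈ star A m K ↔ R ⊆ A ∪ B ∧ ¬ A ⊆ R ∧ ¬ B ⊆ R := by
      show ((T ∈ K ∨ (m ∈ T ∧ T.erase m ∪ A ∈ K)) ∧ ¬ A ⊆ T) ↔ _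
      rw [hAR]
      constructor
      · rintro ⟨h | ⟨-, h⟩, hA⟩
        · exact absurd h hT1
        · refine ⟨(Finset.subset_union_left).trans (h1 _ h Finset.subset_union_right), hA, fun hBR' => ?_⟩
          exact hKB _ h (hBR'.trans Finset.subset_union_left)
      · rintro ⟨h, hA, hB'⟩
        refine ⟨Or.inr ⟨hmT, ?_⟩, hA⟩
        obtain ⟨b, hb, hbR⟩ := Finset.not_subset.mp hB'
        refine hK _ (h2 b hb) _ ?_
        intro x hx
        rw [Finset.mem_erase]
        rcases Finset.mem_union.mp hx with hx | hx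
        · exact ⟨fun he => hbR (he ▸ hx), h hx⟩
        · exact ⟨fun he => Finset.disjoint_left.mp hAB hx (he ▸ hb), Finset.mem_union_left _ hx⟩
    have hRt : T ∈ star B m (flipped K A B) ↔ R ⊆ A ∪ B ∧ ¬ A ⊆ R ∧ ¬ B ⊆ R := by
      show ((T ∈ flipped K A B ∨ (m ∈ T ∧ T.erase m ∪ B ∈ flipped K A B)) ∧ ¬ B ⊆ T) ↔ _
      rw [hBR]
      constructor
      · rintro ⟨h | ⟨-, h⟩, hB'⟩
        · exact absurd h hT2
        · rcases h with ⟨h, -⟩ | ⟨-, h, hA⟩
          · exact absurd Finset.subset_union_right (hKB _ h)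
          · exact ⟨(Finset.subset_union_left).trans h, fun h' => hA (h'.trans Finset.subset_union_left), hB'⟩
      · rintro ⟨h, hA, hB'⟩
        refine ⟨Or.inr ⟨hmT, Or.inr ⟨Finset.subset_union_right, Finset.union_subset h Finset.subset_union_right, ?_⟩⟩, hB'⟩
        intro h'
        apply hA
        intro x hx
        rcases Finset.mem_union.mp (h' hx) with hx' | hx'
        · exact hx'
        · exact absurd hx' (Finset.disjoint_left.mp hAB hx)
    rw [hL, hRt]
  · show ((T ∈ K ∨ (m ∈ T ∧ T.erase m ∪ A ∈ K)) ∧ ¬ A ⊆ T) ↔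
      ((T ∈ flipped K A B ∨ (m ∈ T ∧ T.erase m ∪ B ∈ flipped K A B)) ∧ ¬ B ⊆ T)
    constructor
    · rintro ⟨h | ⟨h, -⟩, hA⟩
      · exact ⟨Or.inl (Or.inl ⟨h, hA⟩), hKB T h⟩
      · exact absurd h hmT
    · rintro ⟨h | ⟨h, -⟩, hB'⟩
      · rcases h with ⟨h, hA⟩ | ⟨h, -⟩
        · exact ⟨Or.inl h, hA⟩
        · exact absurd h hB'
      · exact absurd h hmT

/-- a bistellar flip of a PL sphere -/
theorem PLC_flip {n : ℕ} {K : Set (Finset ℕ)} (hK : ∀ T ∈ K, ∀ S, S ⊆ T → S ∈ K) (h : PLC n K)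
    (hN : ∃ N, ∀ T ∈ K, ∀ v ∈ T, v < N) {A B : Finset ℕ} (hAB : Disjoint A B) (hA : A.Nonempty) (hB : B.Nonempty)
    (h1 : ∀ T ∈ K, A ⊆ T → T ⊆ A ∪ B) (h2 : ∀ b ∈ B, (A ∪ B).erase b ∈ K) (h3 : B ∉ K) : PLC n (flipped K A B) := by
  obtain ⟨N, hN⟩ := hN
  set m := N + (A ∪ B).sup id + 1 with hm
  have hmK : ∀ T ∈ K, m ∉ T := fun T hT h => by have := hN T hT m h; omega
  have hmU : m ∉ A ∪ B := fun h => by
    have : m ≤ (A ∪ B).sup id := Finset.le_sup (f := id) h
    omega
  have hmA : m ∉ A := fun h => hmU (Finset.mem_union_left _ h)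
  have hmB : m ∉ B := fun h => hmU (Finset.mem_union_right _ h)
  have hAK : A ∈ K := by
    obtain ⟨b, hb⟩ := hB
    refine hK _ (h2 b hb) _ fun x hx => Finset.mem_erase.mpr ⟨fun he => ?_, Finset.mem_union_left _ hx⟩
    exact Finset.disjoint_left.mp hAB hx (he ▸ hb)
  refine PLC.unstar _ B m (flipped_down hK h2) ?_ hB ?_ ?_
  · refine Or.inr ⟨Finset.Subset.refl _, Finset.subset_union_right, fun h => ?_⟩
    obtain ⟨a, ha⟩ := hA
    exact Finset.disjoint_left.mp hAB ha (h ha)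
  · rintro T (⟨hT, -⟩ | ⟨-, hT, -⟩) hmT
    · exact hmK T hT hmT
    · exact hmU (hT hmT)
  · rw [← star_flip hK hAB hB h1 h2 h3 hmK hmB hmA]
    exact PLC.star K A m h hAK hA hmK

/-! ### soundness of the checker -/

theorem faces_bdd (L : List ℕ) : ∃ N, ∀ T ∈ faces L, ∀ v ∈ T, v < N := by
  induction L with
  | nil => exact ⟨0, fun T ⟨x, hx, _⟩ => absurd hx (by simp)⟩
  | cons f L ih =>
    obtain ⟨N, hN⟩ := ih
    refine ⟨N + f + 1, ?_⟩
    rintro T ⟨x, hx, hT⟩ v hv
    rcases List.mem_cons.mp hx with rfl | hx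
    · have h1 := Nat.ge_two_pow_of_testBit (hT v hv)
      have h2 : v < 2 ^ v := Nat.lt_two_pow_self
      omega
    · have := hN T ⟨x, hx, hT⟩ v hv
      omega

theorem toFinset_card {l : List ℕ} (h : l.Nodup) : l.toFinset.card = l.length := List.toFinset_card_of_nodup h

/-- one step of the checker -/
theorem step_ok {m d : ℕ} (mv : List ℕ × List ℕ) (L : List ℕ) (c : List ℕ → Bool) (h : step m d mv L c = true) :
    ∃ (L' : List ℕ) (A B : Finset ℕ), c L' = true ∧ faces L' = flipped (faces L) A B ∧ Disjoint A B ∧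
      A.card + B.card = d ∧ A.Nonempty ∧ B.Nonempty ∧ (∀ T ∈ faces L, A ⊆ T → T ⊆ A ∪ B) ∧
      (∀ b ∈ B, (A ∪ B).erase b ∈ faces L) ∧ B ∉ faces L := by
  obtain ⟨la, lb⟩ := mv
  obtain ⟨h0, h⟩ := rec_f h
  obtain ⟨hna, h0⟩ := and_t h0
  obtain ⟨hnb, hd⟩ := and_t h0
  have hna := ne_ok hna
  have hnb := ne_ok hnb
  have hd : la.length + lb.length = d := by
    rw [← len_eq, ← len_eq]
    exact Nat.eq_of_beq_eq_true hd
  obtain ⟨a, h, ha, hnda, -, -⟩ := addl_ok _ _ _ _ h
  obtain ⟨b, h, hb, hndb, -, -⟩ := addl_ok _ _ _ _ h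
  obtain ⟨w, h, hw, -, -, hdis⟩ := addl_ok _ _ _ _ h
  have ha : ∀ i, a.testBit i = decide (i ∈ la) := by
    intro i
    rw [ha i, Nat.zero_testBit, Bool.false_or]
  have hb : ∀ i, b.testBit i = decide (i ∈ lb) := by
    intro i
    rw [hb i, Nat.zero_testBit, Bool.false_or]
  have hw : ∀ i, w.testBit i = (decide (i ∈ la) || decide (i ∈ lb)) := by
    intro i
    rw [hw i, ha i]
  have hdis : ∀ i ∈ lb, i ∉ la := by
    intro i hi
    have := hdis i hi
    rw [ha i] at this
    simpa using this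
  obtain ⟨S, R, h, hS, hR, hl⟩ := pass_ok _ _ _ _ _ _ _ h
  obtain ⟨h1, h⟩ := rec_f h
  obtain ⟨hm, hnw⟩ := and_t h1
  have hm := memB_ok _ _ _ hm
  have hnw := notw_ok _ _ hnw
  obtain ⟨L', hc, hL'⟩ := newf_ok _ _ _ _ h
  have hx : ∀ i j, (Nat.xor w (Nat.shiftLeft 1 i)).testBit j = ((decide (j ∈ la) || decide (j ∈ lb)) ^^ decide (i = j)) := by
    intro i j
    have : Nat.xor w (Nat.shiftLeft 1 i) = w ^^^ Nat.shiftLeft 1 i := rfl
    rw [this, Nat.testBit_xor, sh, hw]
  set A := la.toFinset with hAdef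
  set B := lb.toFinset with hBdef
  have mA : ∀ v, v ∈ A ↔ v ∈ la := fun v => List.mem_toFinset
  have mB : ∀ v, v ∈ B ↔ v ∈ lb := fun v => List.mem_toFinset
  have hAB : Disjoint A B := by
    rw [Finset.disjoint_left]
    intro v hv hv'
    exact hdis _ ((mB v).mp hv') ((mA v).mp hv)
  have hfA : ∀ f, (a &&& f = a ↔ ∀ v ∈ A, f.testBit v = true) := by
    intro f
    rw [land_iff ha]
    constructor
    · intro h v hv
      exact h _ ((mA v).mp hv)
    · intro h i hi
      exact h i ((mA i).mpr hi)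
  have hfB : ∀ f, (b &&& f = b ↔ ∀ v ∈ B, f.testBit v = true) := by
    intro f
    rw [land_iff hb]
    constructor
    · intro h v hv
      exact h _ ((mB v).mp hv)
    · intro h i hi
      exact h i ((mB i).mpr hi)
  have hfw : ∀ f, f ||| w = w → ∀ v : ℕ, f.testBit v = true → v ∈ A ∪ B := by
    intro f hf v hv
    have h1 : (f ||| w).testBit v = w.testBit v := by rw [hf]
    rw [Nat.testBit_or, hv, Bool.true_or, hw] at h1
    rw [Finset.mem_union, mA, mB]
    simpa using h1.symm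
  have hxT : ∀ (i : ℕ) (T : Finset ℕ), T ⊆ A ∪ B → i ∉ T →
      ∀ v ∈ T, (Nat.xor w (Nat.shiftLeft 1 i)).testBit v = true := by
    intro i T hT hi v hv
    rw [hx]
    have h1 := hT hv
    rw [Finset.mem_union, mA, mB] at h1
    have h2 : ¬ i = v := fun he => hi (by rw [he]; exact hv)
    simp [h1, h2]
  have hxS : ∀ (i : ℕ) (T : Finset ℕ), (∀ v ∈ T, (Nat.xor w (Nat.shiftLeft 1 i)).testBit v = true) →
      i ∈ A ∪ B → T ⊆ (A ∪ B).erase i := by
    intro i T hT hi v hv
    have h1 := hT v hv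
    rw [hx] at h1
    rw [Finset.mem_erase, Finset.mem_union, mA, mB]
    rw [Finset.mem_union, mA, mB] at hi
    constructor
    · intro he
      rw [he] at h1
      rcases hi with hi | hi <;> simp [hi] at h1
    · by_cases hv2 : i = v
      · rw [← hv2]
        exact hi
      · simpa [hv2] using h1
  refine ⟨L', A, B, hc, ?_, hAB, ?_, ?_, ?_, ?_, ?_, ?_⟩
  · ext T
    constructor
    · rintro ⟨f, hf, hT⟩
      rcases (hL' f).mp hf with hf | ⟨i, hi, rfl⟩
      · rcases (hR f).mp hf with hf | ⟨hf, hf2⟩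
        · exact absurd hf (by simp)
        · refine Or.inl ⟨⟨f, hf, hT⟩, fun hAT => hf2 ((hfA f).mpr fun v hv => hT v (hAT hv))⟩
      · have hi' : i ∈ A := (mA i).mpr hi
        have hT' := hxS i T hT (Finset.mem_union_left _ hi')
        have hnA : ¬ A ⊆ T := fun h => (Finset.mem_erase.mp (hT' (h hi'))).1 rfl
        by_cases hBT : B ⊆ T
        · exact Or.inr ⟨hBT, fun v hv => (Finset.mem_erase.mp (hT' hv)).2, hnA⟩
        · obtain ⟨b', hb', hb'T⟩ := Finset.not_subset.mp hBT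
          refine Or.inl ⟨?_, hnA⟩
          refine ⟨_, ((hS _).mp (hm b' ((mB _).mp hb'))).elim (fun h => absurd h (by simp)) (fun h => h.1), ?_⟩
          exact hxT b' T (fun v hv => (Finset.mem_erase.mp (hT' hv)).2) hb'T
    · have hnew : ∀ T : Finset ℕ, T ⊆ A ∪ B → ¬ A ⊆ T → T ∈ faces L' := by
        intro T hT hAT
        obtain ⟨a', ha', ha'T⟩ := Finset.not_subset.mp hAT
        exact ⟨_, (hL' _).mpr (Or.inr ⟨a', (mA _).mp ha', rfl⟩), hxT a' T hT ha'T⟩
      rintro (⟨⟨f, hf, hT⟩, hAT⟩ | ⟨-, hT, hAT⟩)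
      · by_cases hf2 : a &&& f = a
        · exact hnew T (fun v hv => hfw f ((hl f hf).1 hf2) v (hT v hv)) hAT
        · exact ⟨f, (hL' f).mpr (Or.inl ((hR f).mpr (Or.inr ⟨hf, hf2⟩))), hT⟩
      · exact hnew T hT hAT
  · rw [toFinset_card hnda, toFinset_card hndb, hd]
  · obtain ⟨i, t, hit⟩ := List.exists_cons_of_ne_nil hna
    exact ⟨i, (mA i).mpr (by rw [hit]; exact List.mem_cons_self)⟩
  · obtain ⟨i, t, hit⟩ := List.exists_cons_of_ne_nil hnb
    exact ⟨i, (mB i).mpr (by rw [hit]; exact List.mem_cons_self)⟩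
  · rintro T ⟨f, hf, hT⟩ hAT v hv
    exact hfw f ((hl f hf).1 ((hfA f).mpr fun v hv => hT v (hAT hv))) v (hT v hv)
  · intro b' hb'
    refine ⟨_, ((hS _).mp (hm b' ((mB _).mp hb'))).elim (fun h => absurd h (by simp)) (fun h => h.1), ?_⟩
    exact hxT b' _ (Finset.erase_subset _ _) (Finset.notMem_erase _ _)
  · rintro ⟨f, hf, hT⟩
    by_cases hf2 : a &&& f = a
    · have hfS : f ∈ S := (hS f).mpr (Or.inr ⟨hf, hf2⟩)
      apply hnw f hfS
      have hfw' := (hl f hf).1 hf2
      apply Nat.eq_of_testBit_eq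
      intro i
      have h1 : (f ||| w).testBit i = w.testBit i := by rw [hfw']
      rw [Nat.testBit_or] at h1
      by_cases hi : w.testBit i = true
      · rw [hi]
        rw [hw i] at hi
        simp only [Bool.or_eq_true, decide_eq_true_eq] at hi
        rcases hi with hi | hi
        · exact (land_iff ha).mp hf2 i hi
        · exact hT i ((mB i).mpr hi)
      · simp only [Bool.not_eq_true] at hi
        rw [hi] at h1 ⊢
        simpa using h1
    · exact (hl f hf).2 hf2 ((hfB f).mpr hT)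

theorem run_ok {m n : ℕ} (l : List (List ℕ × List ℕ)) : ∀ (L : List ℕ) (c : List ℕ → Bool),
    run m (n + 1) l L c = true → PLC n (faces L) → ∃ L', c L' = true ∧ PLC n (faces L') := by
  induction l with
  | nil =>
    intro L c h hL
    exact ⟨L, h, hL⟩
  | cons mv l ih =>
    intro L c h hL
    obtain ⟨L1, A, B, h1, h2, hAB, -, hA, hB, h3, h4, h5⟩ := step_ok mv L _ h
    refine ih L1 c h1 ?_
    rw [h2]
    exact PLC_flip faces_down hL (faces_bdd L) hAB hA hB h3 h4 h5

/-- soundness of the check of a sequence of flips -/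
theorem check_PLC {m n : ℕ} {L L' : List ℕ} {mv : List (List ℕ × List ℕ)} (h : check m (n + 1) L mv L' = true)
    (hL : PLC n (faces L)) : PLC n (faces L') := by
  obtain ⟨L1, h1, h2⟩ := run_ok mv L _ h hL
  rw [← cmp_ok _ _ h1]
  exact h2

/-- soundness of the check of the start -/
theorem start_PLC {m n : ℕ} {la L : List ℕ} (h : start m (n + 1) la L = true) : PLC n (faces L) := by
  obtain ⟨hd, h⟩ := and_t h
  have hd : la.length = n + 1 := by
    rw [← len_eq]
    exact Nat.eq_of_beq_eq_true hd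
  obtain ⟨w, h, hw, hnd, -, -⟩ := addl_ok _ _ _ _ h
  obtain ⟨R, h, hR⟩ := newf_ok _ _ _ _ h
  have hw : ∀ i, w.testBit i = decide (i ∈ la) := by
    intro i
    rw [hw i, Nat.zero_testBit, Bool.false_or]
  have hRL := cmp_ok _ _ h
  subst hRL
  have hx : ∀ i j, (Nat.xor w (Nat.shiftLeft 1 i)).testBit j = (decide (j ∈ la) ^^ decide (i = j)) := by
    intro i j
    have : Nat.xor w (Nat.shiftLeft 1 i) = w ^^^ Nat.shiftLeft 1 i := rfl
    rw [this, Nat.testBit_xor, sh, hw]
  have key : faces R = {T | T ⊂ la.toFinset} := by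
    ext T
    constructor
    · rintro ⟨f, hf, hT⟩
      rcases (hR f).mp hf with hf | ⟨i, hi, rfl⟩
      · exact absurd hf (by simp)
      · rw [Set.mem_setOf_eq, Finset.ssubset_iff_subset_ne]
        constructor
        · intro v hv
          have h1 := hT v hv
          rw [hx] at h1
          rw [List.mem_toFinset]
          by_cases hv2 : i = v
          · rw [← hv2]
            exact hi
          · simpa [hv2] using h1
        · intro he
          have h1 := hT i (by rw [he]; exact List.mem_toFinset.mpr hi)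
          rw [hx] at h1
          simp [hi] at h1
    · intro hT
      rw [Set.mem_setOf_eq, Finset.ssubset_iff_subset_ne] at hT
      obtain ⟨hT, hne⟩ := hT
      obtain ⟨i, hi, hiT⟩ := Finset.not_subset.mp (fun h => hne (Finset.Subset.antisymm hT h))
      refine ⟨_, (hR _).mpr (Or.inr ⟨i, List.mem_toFinset.mp hi, rfl⟩), ?_⟩
      intro v hv
      rw [hx]
      have h1 := List.mem_toFinset.mp (hT hv)
      have h2 : ¬ i = v := fun he => hiT (by rw [he]; exact hv)
      simp [h1, h2]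
  rw [key]
  exact PLC.base _ (by rw [toFinset_card hnd, hd])

/-! ### the cliques of a graph are faces -/

/-- the bit `v` of `f` -/
def bit (f v : ℕ) : Bool := Nat.beq (Nat.land (Nat.shiftRight f v) 1) 1

theorem bit_eq (n i : ℕ) : bit n i = n.testBit i := by
  have h1 : (Nat.land (Nat.shiftRight n i) 1) = (n >>> i) &&& 1 := rfl
  unfold bit
  rw [h1, Nat.testBit]
  have h2 : 1 &&& (n >>> i) = (n >>> i) &&& 1 := Nat.and_comm _ _
  rw [h2]
  have h3 : (n >>> i) &&& 1 = 0 ∨ (n >>> i) &&& 1 = 1 := by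
    rw [Nat.and_one_is_mod]
    omega
  rcases h3 with h | h <;> rw [h] <;> rfl

/-- the facets with the vertex `v` -/
noncomputable def fil (v : ℕ) (l : List ℕ) : List ℕ → (List ℕ → Bool) → Bool :=
  @List.rec ℕ (fun _ => List ℕ → (List ℕ → Bool) → Bool) (fun S c => c S)
    (fun f _ ih S c => @Bool.rec (fun _ => Bool) (ih S c) (ih (f :: S) c) (bit f v)) l

/-- the vertices adjacent to `v` -/
noncomputable def filA (adj : ℕ → ℕ → Bool) (v : ℕ) (l : List ℕ) : List ℕ → (List ℕ → Bool) → Bool :=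
  @List.rec ℕ (fun _ => List ℕ → (List ℕ → Bool) → Bool) (fun S c => c S)
    (fun w _ ih S c => @Bool.rec (fun _ => Bool) (ih S c) (ih (w :: S) c) (adj v w)) l

/-- all the cliques with vertices in the list `cand` are contained in a facet in the list `L` -/
noncomputable def ck (adj : ℕ → ℕ → Bool) (k : ℕ) : List ℕ → List ℕ → Bool :=
  @Nat.rec (fun _ => List ℕ → List ℕ → Bool) (fun _ _ => false)
    (fun _ ih cand L => and (ne L) (@List.rec ℕ (fun _ => Bool) true
      (fun v rest ih2 => @Bool.rec (fun _ => Bool) false ih2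
        (filA adj v rest [] fun cand' => fil v L [] fun L' => ih cand' L')) cand)) k

/-- the list `m - 1, ..., 0` -/
noncomputable def rng (m : ℕ) (c : List ℕ → Bool) : Bool :=
  @Nat.rec (fun _ => (List ℕ → Bool) → Bool) (fun c => c []) (fun k ih c => ih fun l => force k fun k' => c (k' :: l)) m c

/-- all the cliques of the graph with the vertices `0, ..., m - 1` are contained in a facet -/
noncomputable def ckK (m : ℕ) (adj : ℕ → ℕ → Bool) (L : List ℕ) : Bool := rng m fun l => ck adj (Nat.succ m) l L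

theorem fil_ok (v : ℕ) (l : List ℕ) : ∀ (S : List ℕ) (c : List ℕ → Bool), fil v l S c = true →
    ∃ S', c S' = true ∧ ∀ f, f ∈ S' → f ∈ S ∨ (f ∈ l ∧ f.testBit v = true) := by
  induction l with
  | nil =>
    intro S c h
    exact ⟨S, h, fun f hf => Or.inl hf⟩
  | cons f l ih =>
    intro S c h
    have h' : @Bool.rec (fun _ => Bool) (fil v l S c) (fil v l (f :: S) c) (bit f v) = true := h
    cases hb : bit f v with
    | true =>
      rw [hb] at h'
      obtain ⟨S', hc, hS⟩ := ih _ c h'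
      refine ⟨S', hc, fun g hg => ?_⟩
      rcases hS g hg with hg | hg
      · rcases List.mem_cons.mp hg with rfl | hg
        · exact Or.inr ⟨List.mem_cons_self, by rw [← bit_eq]; exact hb⟩
        · exact Or.inl hg
      · exact Or.inr ⟨List.mem_cons_of_mem _ hg.1, hg.2⟩
    | false =>
      rw [hb] at h'
      obtain ⟨S', hc, hS⟩ := ih _ c h'
      refine ⟨S', hc, fun g hg => ?_⟩
      rcases hS g hg with hg | hg
      · exact Or.inl hg
      · exact Or.inr ⟨List.mem_cons_of_mem _ hg.1, hg.2⟩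

theorem filA_ok (adj : ℕ → ℕ → Bool) (v : ℕ) (l : List ℕ) : ∀ (S : List ℕ) (c : List ℕ → Bool),
    filA adj v l S c = true → ∃ S', c S' = true ∧ ∀ w, (w ∈ S ∨ (w ∈ l ∧ adj v w = true)) → w ∈ S' := by
  induction l with
  | nil =>
    intro S c h
    exact ⟨S, h, fun w hw => hw.elim id fun h => absurd h.1 (by simp)⟩
  | cons u l ih =>
    intro S c h
    have h' : @Bool.rec (fun _ => Bool) (filA adj v l S c) (filA adj v l (u :: S) c) (adj v u) = true := h
    cases hb : adj v u with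
    | true =>
      rw [hb] at h'
      obtain ⟨S', hc, hS⟩ := ih _ c h'
      refine ⟨S', hc, fun w hw => hS w ?_⟩
      rcases hw with hw | ⟨hw, hw2⟩
      · exact Or.inl (List.mem_cons_of_mem _ hw)
      · rcases List.mem_cons.mp hw with rfl | hw
        · exact Or.inl List.mem_cons_self
        · exact Or.inr ⟨hw, hw2⟩
    | false =>
      rw [hb] at h'
      obtain ⟨S', hc, hS⟩ := ih _ c h'
      refine ⟨S', hc, fun w hw => hS w ?_⟩
      rcases hw with hw | ⟨hw, hw2⟩
      · exact Or.inl hw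
      · rcases List.mem_cons.mp hw with rfl | hw
        · rw [hb] at hw2
          exact absurd hw2 Bool.false_ne_true
        · exact Or.inr ⟨hw, hw2⟩

theorem ck_ok (adj : ℕ → ℕ → Bool) (k : ℕ) : ∀ (cand L : List ℕ), ck adj k cand L = true → ∀ s : Finset ℕ,
    (∀ x ∈ s, x ∈ cand) → (∀ x ∈ s, ∀ y ∈ s, x ≠ y → adj x y = true) → ∃ f ∈ L, ∀ v ∈ s, f.testBit v = true := by
  induction k with
  | zero =>
    intro cand L h
    exact absurd (show false = true from h) Bool.false_ne_true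
  | succ k ih =>
    intro cand L h s hs hadj
    obtain ⟨hne, h'⟩ := and_t h
    clear h
    have hne := ne_ok hne
    induction cand with
    | nil =>
      obtain ⟨f, t, hft⟩ := List.exists_cons_of_ne_nil hne
      refine ⟨f, by rw [hft]; exact List.mem_cons_self, fun v hv => absurd (hs v hv) (by simp)⟩
    | cons v rest ih2 =>
      obtain ⟨h1, h2⟩ := rec_f h'
      by_cases hv : v ∈ s
      · obtain ⟨cand', h3, hc'⟩ := filA_ok _ _ _ _ _ h1
        obtain ⟨L', h4, hL'⟩ := fil_ok _ _ _ _ h3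
        have hsub : ∀ x ∈ s.erase v, x ∈ cand' := by
          intro x hx
          obtain ⟨hxv, hxs⟩ := Finset.mem_erase.mp hx
          refine hc' x (Or.inr ⟨?_, hadj v hv x hxs (Ne.symm hxv)⟩)
          rcases List.mem_cons.mp (hs x hxs) with h | h
          · exact absurd h hxv
          · exact h
        obtain ⟨f, hf, hfs⟩ := ih cand' L' h4 (s.erase v) hsub
          (fun x hx y hy hxy => hadj x (Finset.mem_of_mem_erase hx) y (Finset.mem_of_mem_erase hy) hxy)
        rcases hL' f hf with h5 | ⟨h5, h6⟩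
        · exact absurd h5 (by simp)
        · refine ⟨f, h5, fun w hw => ?_⟩
          by_cases hwv : w = v
          · rw [hwv]
            exact h6
          · exact hfs w (Finset.mem_erase.mpr ⟨hwv, hw⟩)
      · refine ih2 (fun x hx => ?_) h2
        rcases List.mem_cons.mp (hs x hx) with h | h
        · exact absurd (h ▸ hx) hv
        · exact h

theorem rng_ok (m : ℕ) : ∀ c : List ℕ → Bool, rng m c = true → ∃ l, c l = true ∧ ∀ x, x < m → x ∈ l := by
  induction m with
  | zero =>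
    intro c h
    exact ⟨[], h, fun x hx => absurd hx (Nat.not_lt_zero x)⟩
  | succ m ih =>
    intro c h
    obtain ⟨l, h1, h2⟩ := ih _ h
    rw [force_eq] at h1
    refine ⟨m :: l, h1, fun x hx => ?_⟩
    rcases Nat.lt_succ_iff_lt_or_eq.mp hx with h | h
    · exact List.mem_cons_of_mem _ (h2 x h)
    · rw [h]
      exact List.mem_cons_self

/-- soundness of the check of the cliques -/
theorem ckK_ok {m : ℕ} {adj : ℕ → ℕ → Bool} {L : List ℕ} (h : ckK m adj L = true) (s : Finset ℕ)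
    (hs : ∀ x ∈ s, x < m) (hadj : ∀ x ∈ s, ∀ y ∈ s, x ≠ y → adj x y = true) : s ∈ faces L := by
  obtain ⟨l, h1, h2⟩ := rng_ok m _ h
  obtain ⟨f, hf, hfs⟩ := ck_ok adj _ _ _ h1 s (fun x hx => h2 x (hs x hx)) hadj
  exact ⟨f, hf, hfs⟩

end Pool.Agent.V8H50.GC
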